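import Pool.Agent.H5.Upword

set_option autoImplicit false

namespace Pool.Agent.Results.MP_e9025c_co.Equiv

open Pool.Agent.H5.UpwordDefs

theorem result (n : ℕ) (hn : 1 ≤ n) (w : PWord) (hU : Universal n w) (hT : ¬ IsTrivial n w) :
    (WellDefined n w ↔ Pseudocyclic n w) ∧ (Pseudocyclic n w ↔ Cyclic n w) :=
  H5.Upword.main n hn w hU hT

end Pool.Agent.Results.MP_e9025c_co.Equiv
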